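import Pool.Agent.Run7.h166.OddMain

/-!
Short words for `u_{(n+1)/2}`, short odd relations, short words whose trace is an odd multiple of
`n`, and short positive words of this kind are the same problem.

Let `P i` be odd and at least `3` for every instance `i` (for instance: `i` is an odd prime, or an
odd prime together with random bits, and `P i` is the prime), and let `A` be a class of
algorithms, that is, of functions from instances to words, closed under following an algorithm by
each of the five explicit maps of words `relOfSol`, `solOfRel`, `relOfTrace`, `traceOfSol`,
`positivize` (all of them computable in polynomial time).  Then the four problems are equivalent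
for `A`, with length at most a constant times `log (P i)` in each of them.
-/

namespace Pool.Agent.Results.MP_55cac8_lc.Equivalences

open Run7.h166

theorem result {I : Type} (P : I → ℕ) (hP : ∀ i, Odd (P i) ∧ 3 ≤ P i)
    (A : Set (I → List Gen))
    (hA : ∀ φ ∈ ({relOfSol, solOfRel, relOfTrace, traceOfSol, positivize} :
      Set (List Gen → List Gen)), ∀ f ∈ A, (fun i => φ (f i)) ∈ A) :
    List.TFAE [SolvedBy P A IsSolution, SolvedBy P A IsOddRelation, SolvedBy P A HasOddTrace,
      SolvedBy P A (fun n a => HasOddTrace n a ∧ IsPositive a)] :=
  odd_tfae P hP A hA

end Pool.Agent.Results.MP_55cac8_lc.Equivalences
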