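import Pool.Agent.Run7.h166.Fam

/-!
Explicit short words for `u_{(N+1)/2}` in `PSL_2(Z/N)` when `N` is odd and divides `k b^n - 1` or
`k b^n + 1`, with `k b` even: an explicit word of length at most `18 (b + 3) n + 18 k b^2 + 98`.
For bounded `k` and `b` and `log N` comparable to `n` (Mersenne primes, Fermat primes, primes
`k 2^n + 1`, Thabit primes, Wagstaff primes, decimal repunit primes) this is the length `O(log N)`
of the question.
-/

namespace Pool.Agent.Results.MP_55cac8_lc.Families

open Run7.h166

theorem result (s : Bool) (k b n N : ℕ) (hb : 1 ≤ b) (hn : 1 ≤ n) (hkb : Even (k * b))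
    (hN : Odd N) (h : (N : ℤ) ∣ (k : ℤ) * (b : ℤ) ^ n - (if s then 1 else -1)) :
    IsSolution N (familyWord s k b n) ∧
      (familyWord s k b n).length ≤ 18 * (b + 3) * n + 18 * k * b ^ 2 + 98 :=
  familyWord_spec s k b n N hN hb hn hkb h

end Pool.Agent.Results.MP_55cac8_lc.Families
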