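import Pool.Agent.Run7.h166.Lower2

/-!
Every word in `u_{±1}, v_{±1}` for `u_{(p+1)/2}` in `PSL_2(F_p)` has length at least
`2 log p / log φ - log 12 / log φ`, where `φ` is the golden ratio, for every odd prime `p`.
-/

namespace Pool.Agent.Results.MP_55cac8_lc.LowerBound

open Run7.h166

theorem result (p : ℕ) (hp : p.Prime) (hodd : Odd p) (w : List Gen) (hw : IsSolution p w) :
    (p : ℝ) ^ 2 ≤ 12 * Real.goldenRatio ^ w.length :=
  lower_bound hp hodd w hw

end Pool.Agent.Results.MP_55cac8_lc.LowerBound
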