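import Pool.Agent.Run7.h166.Tradeoff

/-!
A trade-off between running time and length for the random lifting algorithm.

A trial: choose `s, r` below `p ^ 3` at random, apply the subtractive Euclidean algorithm, stopped
after `L` steps, to the lift `((p (2 s + 1) + 1) / 2, p (r + 1))` of the vector `(1/2, 0)`, let `w`
be the positive word in `u_1` and `v_1` which it finds, and output `w u^2 w^{-1}` (the word
`candidate L p s r`).

The theorem: with `L = ⌊a log m log p⌋` a trial gives a word of length at most `A log m log p` for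
`u_{(p+1)/2}` with probability at least `1 / (A (log p)^14 p^(A log m / m))`, for every odd prime
`p` and all `2 ≤ m ≤ 2 + log p`.  For constant `m` this is the length `O(log p)` after
`p^(A log m / m + o(1))` trials, and for `m` about `log p` it is the length
`O(log p log log p)` after a number of trials which is a power of `log p`.
-/

namespace Pool.Agent.Results.MP_55cac8_lc.Tradeoff

open Run7.h166

theorem result :
    ∃ a A : ℝ, 0 < a ∧ 0 < A ∧ ∀ p : ℕ, p.Prime → Odd p → ∀ m : ℕ, 2 ≤ m →
      (m : ℝ) ≤ 2 + Real.log p →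
      (p : ℝ) ^ 6 ≤ A * Real.log p ^ 14 * (p : ℝ) ^ (A * Real.log m / m) *
        ({x : ℕ × ℕ | x.1 < p ^ 3 ∧ x.2 < p ^ 3 ∧
          IsSolution p (candidate ⌊a * Real.log m * Real.log p⌋₊ p x.1 x.2) ∧
          ((candidate ⌊a * Real.log m * Real.log p⌋₊ p x.1 x.2).length : ℝ)
            ≤ A * Real.log m * Real.log p}.ncard : ℝ) := by
  obtain ⟨a, ha, h⟩ := tradeoff
  refine ⟨a, 2 * a + 4, ha, by positivity, ?_⟩
  intro p hp hodd m hm hmp
  have hp3 : 3 ≤ p := by
    have h2 := hp.two_le
    rcases hodd with ⟨k, hk⟩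
    omega
  have hp3R : (3 : ℝ) ≤ p := by exact_mod_cast hp3
  have hlog1 : 1 ≤ Real.log p := by
    rw [Real.le_log_iff_exp_le (by linarith)]
    have := Real.exp_one_lt_d9
    linarith
  have hmR : (2 : ℝ) ≤ m := by exact_mod_cast hm
  have hlogm : (1 / 2 : ℝ) ≤ Real.log m := by
    have h1 : Real.log 2 ≤ Real.log m := Real.log_le_log (by norm_num) hmR
    have := Real.log_two_gt_d9
    linarith
  have hprod : (1 / 2 : ℝ) ≤ Real.log m * Real.log p := by nlinarith
  have hset : {x : ℕ × ℕ | x.1 < p ^ 3 ∧ x.2 < p ^ 3 ∧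
          IsSolution p (candidate ⌊a * Real.log m * Real.log p⌋₊ p x.1 x.2) ∧
          ((candidate ⌊a * Real.log m * Real.log p⌋₊ p x.1 x.2).length : ℝ)
            ≤ (2 * a + 4) * Real.log m * Real.log p}
      = goodPairs ⌊a * Real.log m * Real.log p⌋₊ p := by
    ext x
    unfold goodPairs
    simp only [Set.mem_setOf_eq]
    constructor
    · rintro ⟨h1, h2, h3, -⟩
      exact ⟨h1, h2, h3⟩
    · rintro ⟨h1, h2, h3⟩
      refine ⟨h1, h2, h3, ?_⟩
      have h4 := length_candidate ⌊a * Real.log m * Real.log p⌋₊ p x.1 x.2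
      have h5 : ((candidate ⌊a * Real.log m * Real.log p⌋₊ p x.1 x.2).length : ℝ)
          ≤ 2 * ((⌊a * Real.log m * Real.log p⌋₊ : ℕ) : ℝ) + 2 := by exact_mod_cast h4
      have h6 : ((⌊a * Real.log m * Real.log p⌋₊ : ℕ) : ℝ) ≤ a * Real.log m * Real.log p :=
        Nat.floor_le (by positivity)
      nlinarith
  rw [hset]
  refine (h p hp hodd m hm hmp).trans ?_
  have h7 : (p : ℝ) ^ (a * Real.log m / m) ≤ (p : ℝ) ^ ((2 * a + 4) * Real.log m / m) := by
    apply Real.rpow_le_rpow_of_exponent_le (by linarith)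
    gcongr
    linarith
  gcongr
  linarith

end Pool.Agent.Results.MP_55cac8_lc.Tradeoff
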